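import Mathlib

namespace Pool.Agent.Results.MP_6ee6b4_an.NotDense

open Set Filter Topology MeasureTheory

/-- the set of generators of hypercyclic algebras -/
def Gen (T : (ℕ → ℂ) → (ℕ → ℂ)) : Set (ℕ → ℂ) :=
  {x | x ≠ 0 ∧ ∀ y ∈ Submodule.span ℂ (range fun n : ℕ => x ^ (n + 1)), y ≠ 0 →
    DenseRange fun n => T^[n] y}

noncomputable def sh : (ℕ → ℂ) →L[ℂ] (ℕ → ℂ) :=
  ContinuousLinearMap.pi fun i => ContinuousLinearMap.proj (i + 1)

lemma sh_it (n : ℕ) (x : ℕ → ℂ) (i : ℕ) : (sh^[n] x) i = x (i + n) := by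
  induction n generalizing i with
  | zero => rfl
  | succ n ih =>
    rw [Function.iterate_succ_apply']
    show (sh^[n] x) (i + 1) = _
    rw [ih]; congr 1; ring

noncomputable def S (c : ℂ) : (ℕ → ℂ) →L[ℂ] (ℕ → ℂ) :=
  ContinuousLinearMap.id ℂ _ + (ContinuousLinearMap.proj 0 : (ℕ → ℂ) →L[ℂ] ℂ).smulRight
    fun i => c * (4 ^ i - 1)

lemma S_ap (c : ℂ) (x : ℕ → ℂ) (i : ℕ) : S c x i = x i + x 0 * (c * (4 ^ i - 1)) := by
  simp [S]

lemma S_S (c : ℂ) (x : ℕ → ℂ) : S (-c) (S c x) = x := by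
  ext i; simp [S_ap]

lemma S_S' (c : ℂ) (x : ℕ → ℂ) : S c (S (-c) x) = x := by
  ext i; simp [S_ap]

noncomputable def T : (ℕ → ℂ) →L[ℂ] (ℕ → ℂ) := (S 1).comp (sh.comp (S (-1)))

lemma T_it (n : ℕ) (y : ℕ → ℂ) : T^[n] y = S 1 (sh^[n] (S (-1) y)) := by
  induction n with
  | zero => exact (S_S' 1 y).symm
  | succ n ih =>
    rw [Function.iterate_succ_apply', Function.iterate_succ_apply', ih]
    show S 1 (sh (S (-1) (S 1 _))) = _
    rw [S_S]

lemma exists_hc : ∃ x : ℕ → ℂ, x 0 = 0 ∧ DenseRange fun n => sh^[n] x := by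
  obtain ⟨u, hu⟩ := TopologicalSpace.exists_dense_seq (ℕ → ℂ)
  refine ⟨fun m => if m = 0 then 0 else u (Nat.sqrt m).unpair.1 (m - Nat.sqrt m * Nat.sqrt m),
    by simp, ?_⟩
  refine Dense.of_closure (hu.mono ?_)
  rintro _ ⟨a, rfl⟩
  refine mem_closure_of_tendsto (b := atTop) (f := fun r => sh^[Nat.pair a r * Nat.pair a r] _) ?_
    (Eventually.of_forall fun r => ⟨_, rfl⟩)
  rw [tendsto_pi_nhds]
  intro i
  refine tendsto_const_nhds.congr' ?_
  filter_upwards [eventually_ge_atTop (i + 1)] with r hr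
  have h1 := Nat.right_le_pair a r
  have h2 : Nat.sqrt (i + Nat.pair a r * Nat.pair a r) = Nat.pair a r := by
    rw [add_comm]; exact Nat.sqrt_add_eq _ (by omega)
  have h3 : i + Nat.pair a r * Nat.pair a r ≠ 0 := by
    have : 0 < Nat.pair a r * Nat.pair a r := Nat.mul_pos (by omega) (by omega)
    omega
  rw [sh_it, if_neg h3, h2, Nat.unpair_pair, Nat.add_sub_cancel]

lemma key (A M u : ℝ) (hA : 0 < A) (h8 : 8 ≤ M) (h1 : 8 ≤ A * M) (h2 : 8 ≤ A ^ 2 * M)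
    (hu : A * (M ^ 2 - 1) - (1 + M) ≤ u) (hu2 : u ^ 2 ≤ A ^ 2 * (M ^ 2 - 1) + M) : False := by
  have h3 : A * M ^ 2 / 2 ≤ u := by nlinarith [mul_le_mul h1 h8 (by norm_num) (by positivity)]
  have h4 : (A * M ^ 2 / 2) ^ 2 ≤ u ^ 2 := by gcongr
  have h5 : 64 ≤ M ^ 2 := by nlinarith
  have h6 : 0 < A ^ 2 * M ^ 2 := by positivity
  have h7 : 8 * M ≤ A ^ 2 * M ^ 2 := by nlinarith
  nlinarith [mul_le_mul_of_nonneg_left h5 h6.le]

lemma big (y : ℕ → ℂ) (a : ℂ) (ha : a ≠ 0) : ∃ t : ℝ, ∀ᶠ i : ℕ in atTop,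
    1 ≤ ‖(t : ℂ) * (y i ^ 2 - a ^ 2 * (4 ^ i - 1)) + (y i - a * (4 ^ i - 1))‖ := by
  set s : ℕ → Set ℝ := fun i => {t | 2 ^ i ≤ ‖y i ^ 2 - a ^ 2 * (4 ^ i - 1)‖ ∧
    ‖(t : ℂ) * (y i ^ 2 - a ^ 2 * (4 ^ i - 1)) + (y i - a * (4 ^ i - 1))‖ < 1} with hs
  have hv : ∀ i, volume (s i) ≤ ENNReal.ofReal (2 * (1 / 2) ^ i) := fun i => by
    refine (Real.volume_le_diam _).trans (Metric.ediam_le fun t ht r hr => ?_)
    rw [edist_dist]
    refine ENNReal.ofReal_le_ofReal ?_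
    obtain ⟨h1, h2⟩ := ht
    obtain ⟨-, h3⟩ := hr
    set α := y i ^ 2 - a ^ 2 * (4 ^ i - 1)
    set β := y i - a * (4 ^ i - 1)
    have h4 : dist t r * ‖α‖ ≤ 2 := by
      have e : ((t - r : ℝ) : ℂ) * α = (t * α + β) - (r * α + β) := by push_cast; ring
      have := norm_sub_le (t * α + β) (r * α + β)
      rw [← e, norm_mul, Complex.norm_real, ← dist_eq_norm] at this
      linarith
    have h5 : dist t r * 2 ^ i ≤ 2 := (mul_le_mul_of_nonneg_left h1 dist_nonneg).trans h4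
    rw [one_div, inv_pow, ← div_eq_mul_inv, le_div_iff₀ (by positivity)]
    exact h5
  have hsum : ∑' i, volume (s i) ≠ ⊤ := by
    refine ne_top_of_le_ne_top ?_ (ENNReal.tsum_le_tsum hv)
    rw [← ENNReal.ofReal_tsum_of_nonneg (fun i => by positivity)
      (summable_geometric_two.mul_left 2)]
    exact ENNReal.ofReal_ne_top
  obtain ⟨t, ht01, ht⟩ := (Measure.dense_of_ae (ae_eventually_notMem hsum)).inter_open_nonempty
    (Ioo 0 1) isOpen_Ioo ⟨1 / 2, by norm_num, by norm_num⟩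
  have hA : 0 < ‖a‖ := norm_pos_iff.2 ha
  have hM : Tendsto (fun i : ℕ => (2 : ℝ) ^ i) atTop atTop :=
    tendsto_pow_atTop_atTop_of_one_lt (by norm_num)
  refine ⟨t, ?_⟩
  filter_upwards [ht, hM.eventually_ge_atTop 8, (hM.const_mul_atTop hA).eventually_ge_atTop 8,
    (hM.const_mul_atTop (pow_pos hA 2)).eventually_ge_atTop 8] with i h0 h1 h2 h3
  by_contra hlt
  push Not at hlt
  have hα : ‖y i ^ 2 - a ^ 2 * (4 ^ i - 1)‖ < 2 ^ i := by
    by_contra h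
    exact h0 ⟨not_lt.1 h, hlt⟩
  have e4 : (4 : ℂ) ^ i - 1 = ((((2 : ℝ) ^ i) ^ 2 - 1 : ℝ) : ℂ) := by
    push_cast; rw [← pow_mul, mul_comm, pow_mul]; norm_num
  have hF : ‖(4 : ℂ) ^ i - 1‖ = ((2 : ℝ) ^ i) ^ 2 - 1 := by
    rw [e4, Complex.norm_real, Real.norm_of_nonneg (by nlinarith)]
  set F := (4 : ℂ) ^ i - 1
  refine key ‖a‖ (2 ^ i) ‖y i‖ hA h1 h2 h3 ?_ ?_
  · have e : a * F = y i + t * (y i ^ 2 - a ^ 2 * F) -
        (t * (y i ^ 2 - a ^ 2 * F) + (y i - a * F)) := by ring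
    have h5 := norm_sub_le (y i + t * (y i ^ 2 - a ^ 2 * F))
      (t * (y i ^ 2 - a ^ 2 * F) + (y i - a * F))
    have h6 := norm_add_le (y i) (t * (y i ^ 2 - a ^ 2 * F))
    rw [← e, norm_mul, hF] at h5
    rw [norm_mul, Complex.norm_real, Real.norm_of_nonneg ht01.1.le] at h6
    have h7 : t * ‖y i ^ 2 - a ^ 2 * F‖ ≤ ‖y i ^ 2 - a ^ 2 * F‖ :=
      mul_le_of_le_one_left (norm_nonneg _) ht01.2.le
    linarith
  · have h5 := norm_add_le (y i ^ 2 - a ^ 2 * F) (a ^ 2 * F)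
    rw [sub_add_cancel, norm_mul, hF, norm_pow, norm_pow] at h5
    linarith

lemma not_fin (c : ℕ → ℂ) (h : ∀ᶠ i in atTop, 1 ≤ ‖c i‖) : ¬ DenseRange fun n => sh^[n] c := by
  intro hd
  obtain ⟨N, hN⟩ := eventually_atTop.1 h
  obtain ⟨n, hn⟩ := hd.exists_mem_open (s := {x : ℕ → ℂ | ‖x N‖ < 1})
    (isOpen_lt (by fun_prop) continuous_const) ⟨0, by simp⟩
  have h1 : ‖(sh^[n] c) N‖ < 1 := hn
  rw [sh_it] at h1
  exact absurd (hN (N + n) (by omega)) (not_le.2 h1)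

theorem result : ∃ T : (ℕ → ℂ) →L[ℂ] (ℕ → ℂ),
    TopologicalSpace.IsCompletelyMetrizableSpace (ℕ → ℂ) ∧ IsTopologicalRing (ℕ → ℂ) ∧
    ContinuousSMul ℂ (ℕ → ℂ) ∧
    (Gen T).Nonempty ∧ ¬ Dense (Gen T) ∧ Gen T ∉ residual (ℕ → ℂ) := by
  have hnd : ¬ Dense (Gen T) := by
    intro hd
    obtain ⟨x, hx0, hx⟩ := hd.inter_open_nonempty {x | x 0 ≠ 0}
      (isOpen_ne_fun (continuous_apply 0) continuous_const) ⟨fun _ => 1, by simp⟩
    obtain ⟨t, ht⟩ := big x (x 0) hx0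
    have hm : x + (t : ℂ) • x ^ 2 ∈ Submodule.span ℂ (range fun n : ℕ => x ^ (n + 1)) :=
      Submodule.add_mem _ (Submodule.subset_span ⟨0, by simp⟩)
        (Submodule.smul_mem _ _ (Submodule.subset_span ⟨1, rfl⟩))
    have hb : ∀ᶠ i in atTop, 1 ≤ ‖S (-1) (x + (t : ℂ) • x ^ 2) i‖ := by
      filter_upwards [ht] with i hi
      convert hi using 2
      simp [S_ap]; ring
    have h1 := hx.2 _ hm (fun h => by
      obtain ⟨i, hi⟩ := hb.exists
      rw [h] at hi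
      norm_num at hi)
    refine not_fin _ hb ?_
    have := DenseRange.comp (Function.RightInverse.surjective (S_S 1)).denseRange h1
      (S (-1)).continuous
    convert this using 1
    ext1 n
    simp only [Function.comp, T_it, S_S]
  refine ⟨T, inferInstance, inferInstance, inferInstance, ?_, hnd,
    fun h => hnd (dense_of_mem_residual h)⟩
  obtain ⟨x, hx0, hx⟩ := exists_hc
  refine ⟨x, fun h => ?_, fun y hy hy0 => ?_⟩
  · obtain ⟨n, hn⟩ := hx.exists_mem_open (s := {x : ℕ → ℂ | x 1 ≠ 0})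
      (isOpen_ne_fun (continuous_apply 1) continuous_const) ⟨fun _ => 1, by simp⟩
    apply hn
    rw [sh_it, h]; rfl
  have hp : ∃ p : Polynomial ℂ, p.eval 0 = 0 ∧ ∀ i, y i = p.eval (x i) := by
    clear hy0
    induction hy using Submodule.span_induction with
    | mem y hy =>
      obtain ⟨n, rfl⟩ := hy
      exact ⟨Polynomial.X ^ (n + 1), by simp, by simp⟩
    | zero => exact ⟨0, by simp, by simp⟩
    | add y z _ _ h1 h2 =>
      obtain ⟨p, hp, hp'⟩ := h1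
      obtain ⟨q, hq, hq'⟩ := h2
      exact ⟨p + q, by simp [hp, hq], by simp [hp', hq']⟩
    | smul c y _ h1 =>
      obtain ⟨p, hp, hp'⟩ := h1
      exact ⟨Polynomial.C c * p, by simp [hp], by simp [hp']⟩
  obtain ⟨p, hp0, hp⟩ := hp
  have hdeg : p.natDegree ≠ 0 := by
    intro h
    rw [Polynomial.eq_C_of_natDegree_eq_zero h] at hp0 hp
    apply hy0
    ext i
    rw [hp i]; simpa using hp0
  have hsurj : Function.Surjective fun (v : ℕ → ℂ) i => p.eval (v i) :=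
    Function.Surjective.piMap fun _ => IsAlgClosed.eval_surjective hdeg
  have h1 := DenseRange.comp hsurj.denseRange hx
    (continuous_pi fun i => p.continuous.comp (continuous_apply i))
  have h2 := DenseRange.comp (Function.RightInverse.surjective (S_S' 1)).denseRange h1
    (S 1).continuous
  convert h2 using 1
  ext1 n
  have e : S (-1) y = y := by
    ext i; rw [S_ap, hp 0, hx0, hp0]; simp
  simp only [Function.comp, T_it, e]
  congr 1
  ext i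
  rw [sh_it, sh_it, hp]

end Pool.Agent.Results.MP_6ee6b4_an.NotDense
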